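import Pool.Agent.Q1.FB.ImgBDA

set_option autoImplicit false

/-!
# Families of integral points and maps to varieties without curves of small degree over `G_m`

Let `X` be the integral closed subvariety with the ideal `I` of affine `(N+1)`-space over a countable
field `k` of characteristic zero (for example a number field), `g = (g_0, ..., g_m)` a polynomial map
from `X` to affine `(m+1)`-space, and `Y` the closure of its image, with the ideal `imgA I g`.  There
is no hypothesis on `X` and on the fibres of `g`.  Suppose that `Y` is not covered by affine curves
which have a finite map of degree at most `d` to the punctured line (`¬ CoveredA (imgA I g) d`); for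
`d = 1` this is true if `Y` is of log general type.

We consider families of integral points of `X` of degree at most `d`, over an arbitrary field `L ⊇ k`
which can be embedded in `ℂ`: for `h` in an arbitrary group `H` let `Pol (x h)` be a monic polynomial
of degree `d` over `L` and, for the roots `α` of this polynomial, `Num (x h) α` the point whose
coordinates are values of polynomials of degree less than `d` over `L` at `α`.  The coefficients of
these polynomials, the components of `x(h)`, are given by iterated recurrences (`IterFam s r e x`):
there are invertible matrices `X_1(h), ..., X_s(h)` of size `r` such that, for all `g` in `H`, the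
entries of `X_l(g h) X_l(h)⁻¹` are, for all `h`, the values of polynomials (depending on `g`) of
degree at most `e` in each variable at the entries of `X_i(h)`, `X_i(h)⁻¹`, `i < l`, and the
components of `x(h)` are values of such polynomials at the entries of all these matrices.

Then for all `s`, `r`, `e` there are ONE proper closed subset `X ∩ {G = 0}` of `X` over `k` and ONE
number `B` such that for ALL `L`, `H` and all families `x` of this kind, the points of the family
outside of `G = 0` are in at most `B` fibres of `g`.  In particular, if `Y` has positive dimension,
no such family of integral points of degree at most `d` is Zariski dense in `X`.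
-/

namespace Pool.Agent.Results.MP_464c42_nt.IntegralPointsAndMaps

open MvPolynomial Pool.Agent.Q1.FB Pool.Agent.Q1.BD Pool.Agent.Q1.BA

theorem result (k : Type) [Field k] [Countable k] (N m d : ℕ)
    (I : Ideal (MvPolynomial (Fin (N + 1)) k)) (hprime : I.IsPrime)
    (g : Fin (m + 1) → MvPolynomial (Fin (N + 1)) k) (hcov : ¬ CoveredA (imgA I g) d)
    (s r e : ℕ) :
    ∃ G : MvPolynomial (Fin (N + 1)) k, G ∉ I ∧
      ∃ B : ℕ, ∀ (L : Type) [Field L] [Algebra k L] (_ : L →+* ℂ) (H : Type) [Group H]
        (x : H → Jx N d → L), IterFam s r e x →
        (∀ h α, (Pol (bar (x h))).eval α = 0 → ∀ F ∈ I, aeval (Num (bar (x h)) α) F = 0) →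
        (imgOffA g G x).encard ≤ (B : ℕ∞) := by
  obtain ⟨G, h1, B, h2⟩ := img_bdA I hprime g d hcov s r e
  exact ⟨G, h1, B, fun L _ _ τ H _ x hx hX => h2 L τ H x hx hX⟩

end Pool.Agent.Results.MP_464c42_nt.IntegralPointsAndMaps
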