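import Mathlib
import Pool.Agent.Q13.NS.PairOrb
import Pool.Agent.Q13.DS.Cons

/-!
# Points of C-pairs of general type over finitely generated rings of sequences

Let `X` be a projective variety over a field `k` with an embedding `σ` in `ℂ`, and let
`Δ = ∑ (1 - 1 / m i) D i`, where the `D i` are closed subschemes of `X` (for instance effective
divisors) and `m i` is a natural number or `∞`. Let `L ⊇ k` be a field with an extension `τ : L → ℂ`
of `σ`.

We consider sequences `x t` of points of `X(L)` which are points of the C-pair `(X, Δ)` over a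
finitely generated `ℂ`-algebra `A` of sequences of complex numbers that is closed under the shift
(`OrbifoldOver`): the points have homogeneous coordinates in `A` which generate the unit ideal of
`A`, and the ideal of `A` given by `D i` is generated by a product `∏ a l ^ e l` with
`a l` in `A` and `e l ≥ m i`; if `m i = ∞`, it is the unit ideal. So the values of `A` are given by
recurrences `v (t + 1) = T (v t)` with polynomials `T` (orbits of arbitrary self-maps of affine
varieties), and if the values of the elements of `A` that occur are `S`-integers, the `x t` are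
points in `(𝒳, Δ)(𝒪_S)`, where `D i` has an intersection multiplicity `0` or at least `m i` with
`x t` at all places outside of `S`.

The result: if `X` is geometrically integral, of positive dimension, and the pair `(X, Δ)` is of
general type, then such a sequence is not Zariski dense in `X`: its points lie on a hypersurface
over `L` which does not contain `X`.
-/

set_option autoImplicit false

namespace Pool.Agent.Results.MP_464c42_nt.OrbifoldOrbits

open MvPolynomial Filter FF Pool.Agent.TH143.DE Pool.Agent.TH143.HE Pool.Agent.TH143.GE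
  Pool.Agent.TH143.GT Pool.Agent.W602.GT Pool.Agent.Q13.DS Pool.Agent.Q13.KO Pool.Agent.Q13.NS

variable {k : Type} [Field k] {N : ℕ}

/-- The forms in `FF` define a projective variety `X`, geometrically integral (over `ℂ`, by `σ`) and
of positive dimension; the closed subschemes `D i` given by the forms `G i l` of degree `d i l` are
not equal to `X`, and the pair `(X, ∑ (1 - 1 / m i) D i)` is of general type. Here `F` is the
function field of `X` over `ℂ`, `w` its transcendence degree and `y` the generic point; `m i = 0`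
stands for the multiplicity `∞`. -/
def PairOfGeneralType (σ : k →+* ℂ) (FF : Set (MvPolynomial (Fin (N + 1)) k)) {r q : ℕ}
    (G : Fin r → Fin q → MvPolynomial (Fin (N + 1)) k) (d : Fin r → Fin q → ℕ) (m : Fin r → ℕ) :
    Prop :=
  (∀ H ∈ FF, IsForm H) ∧ (∀ i l, (G i l).IsHomogeneous (d i l)) ∧
    ∃ (F : Type) (_ : Field F) (_ : Algebra ℂ F) (w : ℕ) (y : Fin (N + 1) → F),
      FunField ((Ideal.span FF).map (MvPolynomial.map σ)) 1 F w y ∧ 0 < w ∧
      (∀ i, ∃ l, MvPolynomial.map σ (G i l) ∉ (Ideal.span FF).map (MvPolynomial.map σ)) ∧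
      PairGT w y (fun i l => MvPolynomial.map σ (G i l)) d m

/-- The points `x t` form a point of the C-pair over the finitely generated `ℂ`-algebra `A` of
sequences, closed under the shift: there are homogeneous coordinates in `A` which generate the unit
ideal, and the values of the forms `G i l` generate the same ideal of `A` as a product of powers of
elements of `A` with exponents at least `m i` (the unit ideal if the multiplicity is `∞`, i.e.,
`m i = 0`). -/
def OrbifoldOver {r q : ℕ} (G : Fin r → Fin q → MvPolynomial (Fin (N + 1)) ℂ) (m : Fin r → ℕ)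
    (x : ℕ → Fin (N + 1) → ℂ) : Prop :=
  ∃ A : Subalgebra ℂ (ℕ → ℂ), A.FG ∧ (∀ f ∈ A, (fun t => f (t + 1)) ∈ A) ∧
    ∃ κ : ℕ → ℂ, (∀ t, κ t ≠ 0) ∧ (∀ j, (fun t => κ t * x t j) ∈ A) ∧
      (∃ b : Fin (N + 1) → ℕ → ℂ, (∀ j, b j ∈ A) ∧ ∀ t, ∑ j, b j t * (κ t * x t j) = 1) ∧
      ∀ i, ∃ (s : ℕ) (a : Fin s → ℕ → ℂ) (e : Fin s → ℕ), (∀ l, a l ∈ A) ∧ (∀ l, m i ≤ e l) ∧
        (m i = 0 → s = 0) ∧
        (∀ l, ∃ c ∈ A, ∀ t, eval (fun j => κ t * x t j) (G i l) = c t * ∏ l', a l' t ^ e l') ∧
        ∃ b : Fin q → ℕ → ℂ, (∀ l, b l ∈ A) ∧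
          ∀ t, ∏ l', a l' t ^ e l' = ∑ l, b l t * eval (fun j => κ t * x t j) (G i l)

theorem exists_gens {A : Subalgebra ℂ (ℕ → ℂ)} (hA : A.FG) :
    ∃ (n : ℕ) (v : Fin n → GG), AA v = A.map gg := by
  classical
  obtain ⟨S, hS⟩ := hA
  refine ⟨S.card, fun i => gg (S.equivFin.symm i : ℕ → ℂ), ?_⟩
  unfold AA
  rw [← hS, AlgHom.map_adjoin]
  congr 1
  ext z
  constructor
  · rintro ⟨i, rfl⟩
    exact ⟨_, (S.equivFin.symm i).2, rfl⟩
  · rintro ⟨f, hf, rfl⟩
    exact ⟨S.equivFin ⟨f, hf⟩, by simp⟩

theorem gg_prod {s : ℕ} (a : Fin s → ℕ → ℂ) (e : Fin s → ℕ) :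
    gg (fun t => ∏ l, a l t ^ e l) = ∏ l, gg (a l) ^ e l := by
  have h1 : (fun t => ∏ l, a l t ^ e l : ℕ → ℂ) = ∏ l, a l ^ e l := by
    funext t
    rw [Finset.prod_apply]
    rfl
  rw [h1, map_prod]
  simp only [map_pow]

theorem gg_sum {s : ℕ} (a c : Fin s → ℕ → ℂ) :
    gg (fun t => ∑ l, a l t * c l t) = ∑ l, gg (a l) * gg (c l) := by
  have h1 : (fun t => ∑ l, a l t * c l t : ℕ → ℂ) = ∑ l, a l * c l := by
    funext t
    rw [Finset.sum_apply]
    rfl
  rw [h1, map_sum]
  simp only [map_mul]

/-- **Orbifold points over rings of sequences are not dense** in C-pairs of general type. -/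
theorem result (σ : k →+* ℂ) (FF : Set (MvPolynomial (Fin (N + 1)) k)) {r q : ℕ}
    (G : Fin r → Fin q → MvPolynomial (Fin (N + 1)) k) (d : Fin r → Fin q → ℕ) (m : Fin r → ℕ)
    (hX : PairOfGeneralType σ FF G d m) (L : Type) [Field L] [Algebra k L] (τ : L →+* ℂ)
    (hτ : τ.comp (algebraMap k L) = σ) (x : ℕ → Fin (N + 1) → L)
    (hx : ∀ t, ∀ H ∈ FF, eval₂ (algebraMap k L) (x t) H = 0)
    (hrec : OrbifoldOver (fun i l => MvPolynomial.map σ (G i l)) m (fun t j => τ (x t j))) :
    ∃ H : MvPolynomial (Fin (N + 1)) L, IsForm H ∧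
      H ∉ (Ideal.span FF).map (MvPolynomial.map (algebraMap k L)) ∧ ∀ t, eval (x t) H = 0 := by
  obtain ⟨hFF, hG, F, _, _, w, y, hy, hw, hG0, hGT⟩ := hX
  by_contra hcon
  push Not at hcon
  let _ : Algebra L ℂ := τ.toAlgebra
  have hI : ((Ideal.span FF).map (MvPolynomial.map (algebraMap k L))).map
      (MvPolynomial.map (algebraMap L ℂ)) = (Ideal.span FF).map (MvPolynomial.map σ) := by
    rw [Ideal.map_map]
    congr 1
    rw [← hτ]
    ext G
    · simp [RingHom.algebraMap_toAlgebra]
    · simp
  have h1 : SeqDense ((Ideal.span FF).map (MvPolynomial.map σ)) fun m j => τ (x m j) := by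
    rw [← hI]
    refine seqDense_of fun G hG h0 => ?_
    by_contra hG0
    obtain ⟨m, hm⟩ := hcon G hG hG0
    exact hm (h0 m)
  have hXc : ∀ m, ∀ G ∈ (Ideal.span FF).map (MvPolynomial.map σ),
      eval (fun j => τ (x m j)) G = 0 := by
    intro m
    change (Ideal.span FF).map (MvPolynomial.map σ) ≤ RingHom.ker (eval fun j => τ (x m j))
    rw [Ideal.map_span, Ideal.span_le]
    rintro _ ⟨G, hG, rfl⟩
    change eval (fun j => τ (x m j)) (MvPolynomial.map σ G) = 0
    rw [eval_map, ← hτ]
    have h2 := eval₂_comp_left τ (algebraMap k L) (x m) G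
    rw [hx m G hG, map_zero] at h2
    exact h2.symm
  obtain ⟨A, hA, hsh, κ, hκ, hxA, ⟨b, hbA, hb⟩, hD⟩ := hrec
  obtain ⟨n, v, hv⟩ := exists_gens hA
  have hmem : ∀ f ∈ A, gg f ∈ AA v := fun f hf => by
    rw [hv]
    exact ⟨f, hf, rfl⟩
  obtain ⟨x', hx'⟩ : ∃ x' : ℕ → Fin (N + 1) → ℂ, ∀ t j, x' t j = κ t * τ (x t j) :=
    ⟨_, fun _ _ => rfl⟩
  have hx'f : ∀ t, x' t = fun j => κ t * τ (x t j) := fun t => funext fun j => hx' t j
  have hst : AStable v := by
    intro i
    have h2 : v i ∈ AA v := Algebra.subset_adjoin ⟨i, rfl⟩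
    rw [hv] at h2
    obtain ⟨f, hf, h3⟩ := h2
    have h4 : gg f = v i := h3
    rw [← h4, shG_gg]
    exact hmem _ (hsh f hf)
  have hrel : Rel v x' := by
    intro j
    have h2 := hmem _ (hxA j)
    have h3 : (fun t => x' t j) = fun t => κ t * τ (x t j) := funext fun t => hx' t j
    rw [h3]
    exact h2
  have hpt : GPt v (fun i l => MvPolynomial.map σ (G i l)) m x' := by
    refine ⟨⟨fun j => gg (b j), fun j => hmem _ (hbA j), ?_⟩, fun i => ?_⟩
    · rw [← gg_sum b fun j t => x' t j]
      have h2 : (fun t => ∑ j, b j t * x' t j) = (1 : ℕ → ℂ) := by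
        funext t
        simp only [hx']
        exact hb t
      rw [h2, map_one]
    · obtain ⟨s, a, e, ha, he, hs, hc, b', hb', hbG⟩ := hD i
      refine ⟨s, fun l => gg (a l), e, fun l => hmem _ (ha l), he, hs, fun l => ?_,
        fun l => gg (b' l), fun l => hmem _ (hb' l), ?_⟩
      · obtain ⟨c, hcA, h2⟩ := hc l
        refine ⟨gg c, hmem _ hcA, ?_⟩
        rw [← gg_prod, ← map_mul]
        congr 1
        funext t
        rw [hx'f]
        exact h2 t
      · rw [← gg_prod, ← gg_sum b' fun l t => eval (x' t) (MvPolynomial.map σ (G i l))]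
        congr 1
        funext t
        simp only [hx'f]
        exact hbG t
  have hsub : ∀ t, ∀ H ∈ (Ideal.span FF).map (MvPolynomial.map σ), eval (x' t) H = 0 := by
    intro t
    change (Ideal.span FF).map (MvPolynomial.map σ) ≤ RingHom.ker (eval (x' t))
    rw [Ideal.map_span, Ideal.span_le]
    rintro _ ⟨H, hH, rfl⟩
    change eval (x' t) (MvPolynomial.map σ H) = 0
    obtain ⟨e, he⟩ := hFF H hH
    rw [eval_scale (he.map σ) (hx' t), hXc t _ (Ideal.mem_map_of_mem _ (Ideal.subset_span hH)),
      mul_zero]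
  exact not_dense_pair hy hw (fun i l => (hG i l).map σ) hG0 hGT v x' hst.stable hrel hst hpt
    (Eventually.of_forall hsub) (tail_scale hκ hx' (h1.tail hy hw))

end Pool.Agent.Results.MP_464c42_nt.OrbifoldOrbits
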