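import Mathlib
import Pool.Agent.Q4.Cov.DivThm

set_option autoImplicit false

/-!
# Integral quotients at truncated expansions

The Hadamard quotient theorem for the points `x_q = (q, ⌊θ₁ q⌋, …, ⌊θₙ q⌋)`: integral points on the
complement of the strict transform of a hypersurface `G = 0` in the blow-up of affine space along
`F = G = 0`.
-/

namespace Pool.Agent.Results.MP_464c42_nt.QuotientsAtTruncations

open MvPolynomial

/-- the point `x_q = (q, ⌊θ₁ q⌋, …, ⌊θₙ q⌋)`; the variable `none` is the one of `q` -/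
noncomputable def point {n : ℕ} (θ : Fin n → ℝ) (q : ℕ) : Option (Fin n) → ℤ :=
  fun o => o.elim (q : ℤ) (fun s => ⌊θ s * q⌋)

/-- Let `1, θ₁, …, θₙ` (`n ≥ 1`) be real algebraic numbers, linearly independent over `ℚ`, and
`S` a finite set of primes; `q` and `c` denote nonzero integers composed of primes of `S`. If
`G ≠ 0` does not divide `X₀ʲ F` over `ℚ` for any `j`, then `G(x_q)` divides `c F(x_q)` only for
finitely many `q`. -/
theorem result (n : ℕ) (hn : 1 ≤ n) (θ : Fin n → ℝ) (halg : ∀ s, IsAlgebraic ℚ (θ s))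
    (hind : LinearIndependent ℚ (fun o : Option (Fin n) => (o.elim 1 θ : ℝ))) (S : Finset ℕ)
    (F G : MvPolynomial (Option (Fin n)) ℤ) (hG : G ≠ 0)
    (hno : ¬ ∃ j : ℕ, map (Int.castRingHom ℚ) G ∣ X none ^ j * map (Int.castRingHom ℚ) F) :
    ∃ q₀ : ℕ, ∀ q ≥ q₀, q.primeFactors ⊆ S → ∀ c : ℤ, c ≠ 0 → c.natAbs.primeFactors ⊆ S →
      ¬ (eval (point θ q) G ∣ c * eval (point θ q) F) := by
  have : Nonempty (Fin n) := ⟨⟨0, hn⟩⟩
  have hf : ∀ x : ℕ, x.primeFactors ⊆ S → x.primeFactors ⊆ S.filter Nat.Prime := fun x hx p hp =>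
    Finset.mem_filter.2 ⟨hx hp, Nat.prime_of_mem_primeFactors hp⟩
  rcases Pool.Agent.Q4.Cov.divisibility (S.filter Nat.Prime)
    (fun p hp => (Finset.mem_filter.1 hp).2) θ halg hind F G hG with h | ⟨q₀, h⟩
  · exact absurd h hno
  · exact ⟨q₀, fun q hq hS c hc hcS => h q hq (hf _ hS) c hc (hf _ hcS)⟩

end Pool.Agent.Results.MP_464c42_nt.QuotientsAtTruncations
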