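import Mathlib
import Pool.Agent.Q158.RR
import Pool.Agent.Results.MP_464c42_nt.HeightWindows

/-!
# C-pairs of general type on the line without integral points of random height

Let `K` be a number field of degree `d`, `S` a finite set of primes and `0 ≤ s < 1`. If the integer `N` is given by
digits or by multiples of a random real number (in the sense of `RandomReals s`), then for all orders `m_0, m_1, m_2` with
`σ = 1 / m_0 + 1 / m_1 + 1 / m_2 < 1` and `min (4 σ / 7) (20 / 37) ≤ s` (for `s ≥ 20 / 37`: for all C-pairs of general
type with the support `0, 1, ∞`) and all `k`, the C-pair has no `S`-integral point `x` over `K` whose relative height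
`H_K(x) = exp (d h(x))` differs from `N` by at most `k`.
-/

set_option autoImplicit false

namespace Pool.Agent.Results.MP_464c42_nt.RandomHeights

open NumberField IsDedekindDomain
open HeightWindows (height recip IsIntegral)

/-- the orders `m_0, m_1, m_2 ∈ {1, 2, …, ∞}` with `σ = ∑ 1 / m_i < 1` and `min (4 σ / 7) (20 / 37) ≤ s` -/
def Orders (s : ℝ) : Type :=
  {m : Fin 3 → ℕ∞ // (∀ i, 1 ≤ m i) ∧ ∑ i, recip (m i) < 1 ∧ min (4 * (∑ i, recip (m i)) / 7) (20 / 37) ≤ s}

instance (s : ℝ) : Countable (Orders s) := by
  unfold Orders
  have : Countable ℕ∞ := inferInstanceAs (Countable (Option ℕ))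
  infer_instance

/-- **Theorem.** Let `K` be a number field, `S` a finite set of primes of `K` and `0 ≤ s < 1`. In the sense of
`RandomReals s` (windows of digits in all bases, and integers near the multiples `α v_k`, for random real numbers `α`,
with Hausdorff dimensions and measures of the exceptional sets): for all these orders `m` and all `k` at once, no
`S`-integral point `x ∈ K` of the C-pair with the orders `m` satisfies `|exp (d h(x)) - N| ≤ k`. -/
theorem result (K : Type) [Field K] [NumberField K] (S : Finset (HeightOneSpectrum (𝓞 K))) (s : ℝ)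
    (hs : 0 ≤ s) (hs1 : s < 1) :
    Pool.Agent.Q21.DW.RandomReals s (fun (p : Orders s × ℕ) (N : ℕ) =>
      ∀ x : K, IsIntegral S p.1.1 x → (p.2 : ℝ) < |Real.exp ((Module.finrank ℚ K : ℝ) * height x) - N|) :=
  Pool.Agent.Q158.RR.random (fun m : Orders s => {x : K | IsIntegral S m.1 x})
    (fun _ x => Real.exp ((Module.finrank ℚ K : ℝ) * height x)) s hs hs1 fun m =>
      Pool.Agent.Q158.RR.weaken m.2.2.2 (HeightWindows.count K S m.1 m.2.1 m.2.2.1)

end Pool.Agent.Results.MP_464c42_nt.RandomHeights
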